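import Pool.Agent.W123.RU.Gen
import Pool.Agent.W123.RP.Twin

set_option autoImplicit false

/-!
# The sieve conditions of the binary Goldbach problem, uniformly in `N`
-/

namespace Pool.Agent.TH464.GB

open Finset Filter
open Pool.Agent.W123.RP Pool.Agent.H373R2.T7 Pool.Agent.W123.RU

/-- `p` divides `N - n` -/
def QA (N p n : ℕ) : Prop := (p : ℤ) ∣ (N : ℤ) - n

/-- `p` divides `n (N - n)` -/
def QN (N p n : ℕ) : Prop := (p : ℤ) ∣ (n : ℤ) ∨ (p : ℤ) ∣ (N : ℤ) - n

lemma mod_dvd (p n : ℕ) : (p : ℤ) ∣ (n : ℤ) - ((n % p : ℕ) : ℤ) := Twin.mod_dvd p n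

lemma QA_per (N p n : ℕ) : QA N p n ↔ QA N p (n % p) := by
  unfold QA
  apply Int.dvd_iff_dvd_of_dvd_sub
  obtain ⟨k, hk⟩ := mod_dvd p n
  exact ⟨-k, by linear_combination -hk⟩

lemma QN_per (N p n : ℕ) : QN N p n ↔ QN N p (n % p) := by
  unfold QN
  apply or_congr
  · apply Int.dvd_iff_dvd_of_dvd_sub
    exact mod_dvd p n
  · exact QA_per N p n

open Classical in
/-- the number of classes of units -/
lemma rhoA_QA (N p : ℕ) (hp : p.Prime) : rhoA (QA N) p = if p ∣ N then 0 else 1 := by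
  unfold rhoA
  have hpi : Prime (p : ℤ) := Nat.prime_iff_prime_int.1 hp
  split_ifs with h
  · rw [Finset.card_eq_zero, Finset.filter_eq_empty_iff]
    rintro r _ ⟨h1, h2⟩
    apply h1
    have h3 : (p : ℤ) ∣ (N : ℤ) := by exact_mod_cast h
    unfold QA at h2
    have h4 := dvd_sub h3 h2
    have e : (N : ℤ) - ((N : ℤ) - r) = r := by ring
    rw [e] at h4
    exact_mod_cast h4
  · rw [Finset.card_eq_one]
    refine ⟨N % p, ?_⟩
    ext r
    rw [mem_filter, mem_singleton, mem_range]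
    constructor
    · rintro ⟨h1, h2, h3⟩
      unfold QA at h3
      have h4 : (N : ℕ) ≡ r [MOD p] := by
        have := (Int.modEq_iff_dvd).2 h3
        exact ((Int.natCast_modEq_iff).1 this).symm
      have h5 : N % p = r % p := h4
      rw [Nat.mod_eq_of_lt h1] at h5
      exact h5.symm
    · rintro rfl
      refine ⟨Nat.mod_lt _ hp.pos, ?_, ?_⟩
      · intro h1
        apply h
        rw [← Nat.mod_add_div N p]
        exact dvd_add h1 (dvd_mul_right _ _)
      · exact mod_dvd p N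

open Classical in
lemma nuB_QN (N p : ℕ) (hp : p.Prime) : nuB (QN N) p = 1 + rhoA (QA N) p := by
  unfold nuB rhoA
  have h : (range p).filter (fun r => QN N p r) =
      {0} ∪ (range p).filter (fun r => ¬ p ∣ r ∧ QA N p r) := by
    ext r
    rw [mem_filter, mem_union, mem_filter, mem_singleton, mem_range]
    unfold QN
    rw [Int.natCast_dvd_natCast]
    constructor
    · rintro ⟨h1, h2⟩
      rcases Nat.eq_zero_or_pos r with h0 | h0
      · exact Or.inl h0
      · have h3 : ¬ p ∣ r := Nat.not_dvd_of_pos_of_lt h0 h1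
        right
        refine ⟨h1, h3, ?_⟩
        rcases h2 with h2 | h2
        · exact absurd h2 h3
        · exact h2
    · rintro (h1 | ⟨h1, h2, h3⟩)
      · subst h1
        exact ⟨hp.pos, Or.inl (dvd_zero _)⟩
      · exact ⟨h1, Or.inr h3⟩
  rw [h, card_union_of_disjoint]
  · rw [card_singleton]
  · rw [disjoint_singleton_left, mem_filter]
    rintro ⟨-, h2, -⟩
    exact h2 (dvd_zero _)

lemma nuB_QN' (N p : ℕ) (hp : p.Prime) : nuB (QN N) p = if p ∣ N then 1 else 2 := by
  rw [nuB_QN N p hp, rhoA_QA N p hp]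
  split_ifs <;> rfl

lemma perA (N : ℕ) : PerA (QA N) 1 := ⟨QA_per N, fun p hp => by
  rw [rhoA_QA N p hp]
  split_ifs <;> omega⟩

lemma perB (N : ℕ) : PerB (QN N) 2 := ⟨QN_per N, fun p hp => by
  rw [nuB_QN' N p hp]
  split_ifs <;> omega⟩

lemma sdata (N : ℕ) (hN : 2 ∣ N) : Sdata (QN N) (CoG (QN N)) 2 4 4 := by
  refine ⟨perB N, ?_, by norm_num, fun p _ _ h m h1 h2 => ⟨m, h1, h2⟩, coll_gen (QN N) 2 (perB N) 4⟩
  intro p hp
  rw [nuB_QN' N p hp]
  have := hp.two_le
  split_ifs with h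
  · omega
  · have : p ≠ 2 := by
      rintro rfl
      exact h hN
    omega

lemma coll_dvd (N p h : ℕ) (hc : CoG (QN N) p h) :
    (p : ℤ) ∣ (h : ℤ) * (((N : ℤ) - h) * (N + h)) := by
  obtain ⟨m, h1, h2⟩ := hc
  unfold QN at h1 h2
  push_cast at h2
  rcases h1 with h1 | h1 <;> rcases h2 with h2 | h2
  · apply Dvd.dvd.mul_right
    have := dvd_sub h2 h1
    rwa [add_sub_cancel_left] at this
  · apply Dvd.dvd.mul_left
    apply Dvd.dvd.mul_right
    have := dvd_add h2 h1
    have e : (N : ℤ) - (m + h) + m = N - h := by ring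
    rwa [e] at this
  · apply Dvd.dvd.mul_left
    apply Dvd.dvd.mul_left
    have := dvd_add h2 h1
    have e : (m : ℤ) + h + (N - m) = N + h := by ring
    rwa [e] at this
  · apply Dvd.dvd.mul_right
    have := dvd_sub h1 h2
    have e : (N : ℤ) - m - (N - (m + h)) = h := by ring
    rwa [e] at this

open Classical in
/-- few large primes divide a collision -/
lemma large (N T y h : ℕ) (hN : 2 ≤ N) (h1 : 1 ≤ h) (hT : h ≤ T) (hTN : T < N) :
    (((pz y).filter (fun p : ℕ => T < p ∧ CoG (QN N) p h)).card : ℝ) ≤ 8 * Real.log N := by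
  have hN0 : (0 : ℝ) < N := by exact_mod_cast (by omega : 0 < N)
  have hh : (1 : ℤ) ≤ h := by exact_mod_cast h1
  have hhN : (h : ℤ) < N := by exact_mod_cast (by omega : h < N)
  have hpos : 0 < (h : ℤ) * (((N : ℤ) - h) * (N + h)) :=
    mul_pos (by linarith) (mul_pos (by linarith) (by linarith))
  have h2 := card_le_log ((pz y).filter (fun p : ℕ => T < p ∧ CoG (QN N) p h))
    ((h : ℤ) * (((N : ℤ) - h) * (N + h))).natAbs (Int.natAbs_ne_zero.2 hpos.ne') (fun p hp => by
      rw [mem_filter] at hp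
      exact ⟨(mem_pz.1 hp.1).2, Int.natCast_dvd.1 (coll_dvd N p h hp.2.2)⟩)
  have h3 : Real.log ((((h : ℤ) * (((N : ℤ) - h) * (N + h))).natAbs : ℕ) : ℝ) ≤ 3 * Real.log N := by
    have e1 : ((((h : ℤ) * (((N : ℤ) - h) * (N + h))).natAbs : ℕ) : ℝ) =
        (h : ℝ) * (((N : ℝ) - h) * (N + h)) := by
      rw [Nat.cast_natAbs, abs_of_pos hpos]
      push_cast
      ring
    rw [e1]
    have hr1 : (1 : ℝ) ≤ h := by exact_mod_cast h1
    have hr2 : (h : ℝ) < N := by exact_mod_cast (by omega : h < N)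
    calc Real.log ((h : ℝ) * (((N : ℝ) - h) * (N + h))) ≤ Real.log ((N : ℝ) ^ 3) := by
          apply Real.log_le_log
          · exact mul_pos (by linarith) (mul_pos (by linarith) (by linarith))
          · have e2 : ((N : ℝ) - h) * (N + h) ≤ (N : ℝ) ^ 2 := by nlinarith
            have e3 : 0 ≤ ((N : ℝ) - h) * (N + h) := mul_nonneg (by linarith) (by linarith)
            calc (h : ℝ) * (((N : ℝ) - h) * (N + h)) ≤ N * (N : ℝ) ^ 2 := by
                  apply mul_le_mul hr2.le e2 e3 hN0.le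
              _ = (N : ℝ) ^ 3 := by ring
      _ = 3 * Real.log N := by rw [Real.log_pow]; norm_num
  have hl2 : (1 : ℝ) / 2 ≤ Real.log 2 := by
    have := Real.log_two_gt_d9
    linarith
  have hc0 : (0 : ℝ) ≤ (((pz y).filter (fun p : ℕ => T < p ∧ CoG (QN N) p h)).card : ℝ) :=
    Nat.cast_nonneg _
  have h5 := mul_le_mul_of_nonneg_left hl2 hc0
  have h6 : 0 ≤ Real.log (N : ℝ) := Real.log_nonneg (by exact_mod_cast (by omega : 1 ≤ N))
  linarith

/-! ### the singular series -/

/-- the singular series, `∏ (p - 1) / (p - 2)` over the odd primes dividing `N` -/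
noncomputable def sing (N : ℕ) : ℝ :=
  ∏ p ∈ N.primeFactors.filter (fun p => p ≠ 2), ((p : ℝ) - 1) / ((p : ℝ) - 2)

/-- its part up to `y` -/
noncomputable def sy (N y : ℕ) : ℝ :=
  ∏ p ∈ pz y, (if p ∣ N ∧ p ≠ 2 then ((p : ℝ) - 1) / ((p : ℝ) - 2) else 1)

lemma fac_ge (p : ℕ) (hp : p.Prime) (h2 : p ≠ 2) : 1 ≤ ((p : ℝ) - 1) / ((p : ℝ) - 2) := by
  have h3 : 3 ≤ p := by
    have := hp.two_le
    omega
  have h3r : (3 : ℝ) ≤ p := by exact_mod_cast h3
  rw [le_div_iff₀ (by linarith)]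
  linarith

lemma sy_ge (N y : ℕ) : 1 ≤ sy N y := by
  unfold sy
  apply Finset.one_le_prod
  intro p hp
  split_ifs with h
  · exact fac_ge p (mem_pz.1 hp).2 h.2
  · exact le_rfl

lemma sing_ge (N : ℕ) : 1 ≤ sing N := by
  unfold sing
  apply Finset.one_le_prod
  intro p hp
  rw [mem_filter] at hp
  exact fac_ge p (Nat.prime_of_mem_primeFactors hp.1) hp.2

lemma sy_eq (N y : ℕ) (hN : N ≠ 0) : sy N y =
    ∏ p ∈ (N.primeFactors.filter (fun p => p ≠ 2)).filter (fun p => p ≤ y),
      ((p : ℝ) - 1) / ((p : ℝ) - 2) := by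
  unfold sy
  rw [← Finset.prod_filter]
  apply Finset.prod_congr _ (fun _ _ => rfl)
  ext p
  rw [mem_filter, mem_filter, mem_filter, mem_pz, Nat.mem_primeFactors]
  tauto

lemma sy_le_sing (N y : ℕ) (hN : N ≠ 0) : sy N y ≤ sing N := by
  rw [sy_eq N y hN]
  unfold sing
  apply Finset.prod_le_prod_of_subset_of_one_le (filter_subset _ _)
  · intro p hp
    rw [mem_filter, mem_filter] at hp
    have := fac_ge p (Nat.prime_of_mem_primeFactors hp.1.1) hp.1.2
    linarith
  · intro p hp _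
    rw [mem_filter] at hp
    exact fac_ge p (Nat.prime_of_mem_primeFactors hp.1) hp.2

/-- the large prime factors contribute at most a factor `2` -/
lemma sing_le (N y : ℕ) (hN : 1 ≤ N) (hy : 8 * Real.log N + 4 ≤ y) : sing N ≤ 2 * sy N y := by
  have hN0 : N ≠ 0 := by omega
  have hl0 : 0 ≤ Real.log (N : ℝ) := Real.log_nonneg (by exact_mod_cast hN)
  have hsplit : sing N = sy N y *
      ∏ p ∈ (N.primeFactors.filter (fun p => p ≠ 2)).filter (fun p => ¬ p ≤ y),
        ((p : ℝ) - 1) / ((p : ℝ) - 2) := by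
    rw [sy_eq N y hN0]
    unfold sing
    exact (Finset.prod_filter_mul_prod_filter_not _ _ _).symm
  obtain ⟨F, hF⟩ : ∃ F, F = (N.primeFactors.filter (fun p => p ≠ 2)).filter (fun p => ¬ p ≤ y) :=
    ⟨_, rfl⟩
  rw [← hF] at hsplit
  have hcard := card_le_log F N hN0 (fun p hp => by
    rw [hF, mem_filter, mem_filter] at hp
    exact ⟨Nat.prime_of_mem_primeFactors hp.1.1, Nat.dvd_of_mem_primeFactors hp.1.1⟩)
  have hl2 : (1 : ℝ) / 2 ≤ Real.log 2 := by
    have := Real.log_two_gt_d9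
    linarith
  have hc0 : (0 : ℝ) ≤ (F.card : ℝ) := Nat.cast_nonneg _
  have h5 := mul_le_mul_of_nonneg_left hl2 hc0
  have h6 : (F.card : ℝ) ≤ 2 * Real.log N := by linarith
  have hy4 : (4 : ℝ) ≤ y := by linarith
  have hprod : ∏ p ∈ F, ((p : ℝ) - 1) / ((p : ℝ) - 2) ≤ Real.exp (1 / ((y : ℝ) - 2)) ^ F.card := by
    rw [← Finset.prod_const]
    apply Finset.prod_le_prod
    · intro p hp
      rw [hF, mem_filter, mem_filter] at hp
      have := fac_ge p (Nat.prime_of_mem_primeFactors hp.1.1) hp.1.2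
      linarith
    · intro p hp
      rw [hF, mem_filter, mem_filter] at hp
      have h7 : (y : ℝ) < p := by
        have := hp.2
        exact_mod_cast (by omega : y < p)
      have h8 : ((p : ℝ) - 1) / ((p : ℝ) - 2) = 1 + 1 / ((p : ℝ) - 2) := by
        have : (p : ℝ) - 2 ≠ 0 := by linarith
        field_simp
        ring
      rw [h8]
      have h9 : 1 / ((p : ℝ) - 2) ≤ 1 / ((y : ℝ) - 2) :=
        one_div_le_one_div_of_le (by linarith) (by linarith)
      have h10 := Real.add_one_le_exp (1 / ((y : ℝ) - 2))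
      linarith
  have hexp : Real.exp (1 / ((y : ℝ) - 2)) ^ F.card ≤ 2 := by
    rw [← Real.exp_nat_mul]
    have h7 : (F.card : ℝ) * (1 / ((y : ℝ) - 2)) ≤ 1 / 2 := by
      rw [mul_one_div, div_le_iff₀ (by linarith)]
      linarith
    have h8 : Real.exp ((F.card : ℝ) * (1 / ((y : ℝ) - 2))) ≤ Real.exp (Real.log 2) := by
      apply Real.exp_le_exp.2
      linarith
    rwa [Real.exp_log (by norm_num)] at h8
  rw [hsplit]
  have h11 := sy_ge N y
  calc sy N y * ∏ p ∈ F, ((p : ℝ) - 1) / ((p : ℝ) - 2) ≤ sy N y * 2 := by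
        apply mul_le_mul_of_nonneg_left (hprod.trans hexp) (by linarith)
    _ = 2 * sy N y := by ring

/-! ### comparison with `N = 2` -/

lemma dvd_two {p : ℕ} (hp : p.Prime) : p ∣ 2 ↔ p = 2 := by
  constructor
  · intro h
    exact (Nat.prime_dvd_prime_iff_eq hp Nat.prime_two).1 h
  · rintro rfl
    exact dvd_rfl

lemma Vq_eq (N y : ℕ) (hN : 2 ∣ N) : Vq (QN N) y = Vq (QN 2) y * sy N y := by
  unfold Vq sy
  rw [← Finset.prod_mul_distrib]
  apply Finset.prod_congr rfl
  intro p hp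
  have hpp := (mem_pz.1 hp).2
  rw [nuB_QN' N p hpp, nuB_QN' 2 p hpp]
  simp only [dvd_two hpp]
  by_cases h2 : p = 2
  · subst h2
    simp [hN]
  · have h3 : 3 ≤ p := by
      have := hpp.two_le
      omega
    have h3r : (3 : ℝ) ≤ p := by exact_mod_cast h3
    by_cases h : p ∣ N
    · simp only [h, h2, ite_true, ite_false, ne_eq, not_false_eq_true, and_self]
      have h4 : (p : ℝ) - 2 ≠ 0 := by linarith
      have h5 : (p : ℝ) ≠ 0 := by linarith
      push_cast
      field_simp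
    · simp [h, h2]

/-- the density of the units -/
noncomputable def Wy (N y : ℕ) : ℝ := ∏ p ∈ pz y, (1 - (rhoA (QA N) p : ℝ) / (p - 1 : ℝ))

lemma Wy_eq (N y : ℕ) (hN : 2 ∣ N) : Wy N y = Wy 2 y * sy N y := by
  unfold Wy sy
  rw [← Finset.prod_mul_distrib]
  apply Finset.prod_congr rfl
  intro p hp
  have hpp := (mem_pz.1 hp).2
  rw [rhoA_QA N p hpp, rhoA_QA 2 p hpp]
  simp only [dvd_two hpp]
  by_cases h2 : p = 2
  · subst h2
    simp [hN]
  · have h3 : 3 ≤ p := by
      have := hpp.two_le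
      omega
    have h3r : (3 : ℝ) ≤ p := by exact_mod_cast h3
    by_cases h : p ∣ N
    · simp only [h, h2, ite_true, ite_false, ne_eq, not_false_eq_true, and_self]
      have h4 : (p : ℝ) - 2 ≠ 0 := by linarith
      have h5 : (p : ℝ) - 1 ≠ 0 := by linarith
      push_cast
      field_simp
      ring
    · simp [h, h2]

lemma Wy_le (N y : ℕ) : Wy N y ≤ 1 := by
  unfold Wy
  apply Finset.prod_le_one
  · intro p hp
    have hpp := (mem_pz.1 hp).2
    rw [rhoA_QA N p hpp]
    have h1 : (2 : ℝ) ≤ p := by exact_mod_cast hpp.two_le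
    split_ifs
    · simp
    · have : (1 : ℝ) / ((p : ℝ) - 1) ≤ 1 := by
        rw [div_le_one (by linarith)]
        linarith
      push_cast
      linarith
  · intro p hp
    have hpp := (mem_pz.1 hp).2
    have h1 : (2 : ℝ) ≤ p := by exact_mod_cast hpp.two_le
    have : 0 ≤ (rhoA (QA N) p : ℝ) / (p - 1 : ℝ) := div_nonneg (Nat.cast_nonneg _) (by linarith)
    linarith

/-- **The densities.** -/
theorem bounds : ∃ v w : ℝ, 0 < v ∧ 0 < w ∧ w ≤ 1 ∧ ∀ N y : ℕ, 2 ∣ N → 2 ≤ y →
    Vq (QN N) y ≤ v * sy N y / Real.log y ^ 2 ∧ w * sy N y / Real.log y ≤ Wy N y ∧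
      sy N y ≤ Real.log y / w := by
  obtain ⟨Cv, hCv, hV⟩ := Vq_upper (QN 2) 2 2 (fun p hp h => by
    rw [nuB_QN' 2 p hp, if_neg (by rw [dvd_two hp]; omega)])
  obtain ⟨c0, hc0, hW⟩ := prod_lower (fun p => rhoA (QA 2) p) 1
    (fun p hp => by rw [rhoA_QA 2 p hp]; split_ifs <;> omega) (fun p hp => by
      rw [rhoA_QA 2 p hp]
      have := hp.two_le
      split_ifs with h
      · omega
      · have : p ≠ 2 := fun h2 => h (by rw [h2])
        omega)
  refine ⟨Cv, min c0 1, hCv, by positivity, min_le_right _ _, ?_⟩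
  intro N y hN hy
  have hlog : 0 < Real.log y := Real.log_pos (by exact_mod_cast (by omega : 1 < y))
  have hs := sy_ge N y
  have hW2 : min c0 1 / Real.log y ≤ Wy 2 y := by
    have h := hW y hy
    rw [pow_one] at h
    refine le_trans ?_ h
    gcongr
    exact min_le_left _ _
  refine ⟨?_, ?_, ?_⟩
  · rw [Vq_eq N y hN]
    calc Vq (QN 2) y * sy N y ≤ Cv / Real.log y ^ 2 * sy N y := by
          apply mul_le_mul_of_nonneg_right (hV y hy) (by linarith)
      _ = _ := by ring
  · rw [Wy_eq N y hN]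
    calc min c0 1 * sy N y / Real.log y = min c0 1 / Real.log y * sy N y := by ring
      _ ≤ _ := mul_le_mul_of_nonneg_right hW2 (by linarith)
  · have h1 := Wy_le N y
    rw [Wy_eq N y hN] at h1
    have hm : 0 < min c0 1 := by positivity
    rw [le_div_iff₀ hm]
    have h2 : min c0 1 / Real.log y * sy N y ≤ 1 :=
      (mul_le_mul_of_nonneg_right hW2 (by linarith)).trans h1
    rw [div_mul_eq_mul_div, div_le_one hlog] at h2
    linarith

end Pool.Agent.TH464.GB
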