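import Pool.Agent.TH464.GB.Basic
import Pool.Agent.W123.PP.SieveE

set_option autoImplicit false

/-!
# Sieve input for the primes `p` with `N - p` almost prime, uniformly in `N`
-/

namespace Pool.Agent.TH464.GB

open Finset Filter
open Pool.Agent.W123.RP Pool.Agent.H373R2.T7 Pool.Agent.W123.RU

/-- `p < N` is prime and `N - p` has at most `r` prime factors, all larger than `N ^ (1 / r)` -/
def Gb (r N p : ℕ) : Prop :=
  p.Prime ∧ p < N ∧ (N - p).primeFactorsList.length ≤ r ∧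
    ∀ q : ℕ, q.Prime → q ∣ N - p → (N : ℝ) ^ (1 / (r : ℝ)) < (q : ℝ)

/-- the length scale `log ^ 2 N / 𝔖 (N)` -/
noncomputable def Ls (N : ℕ) : ℝ := Real.log N ^ 2 / sing N

lemma logpow_rpow (g : ℕ) (M θ : ℝ) (hM : 0 < M) (hθ : 0 < θ) :
    ∀ᶠ X : ℕ in atTop, M * Real.log X ^ g ≤ (X : ℝ) ^ θ := by
  have h := ((isLittleO_log_rpow_rpow_atTop (g : ℝ) hθ).comp_tendsto
    tendsto_natCast_atTop_atTop).bound (by positivity : (0 : ℝ) < 1 / M)
  filter_upwards [h, eventually_ge_atTop 1] with X h2 hX1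
  have hX1' : (1 : ℝ) ≤ X := by exact_mod_cast hX1
  have hlog : 0 ≤ Real.log (X : ℝ) := Real.log_nonneg hX1'
  simp only [Function.comp_def] at h2
  rw [Real.norm_of_nonneg (by positivity), Real.norm_of_nonneg (by positivity),
    Real.rpow_natCast] at h2
  rw [one_div, inv_mul_eq_div, le_div_iff₀ hM] at h2
  linarith

lemma not_QN (r N m q : ℕ) (hm : Gb r N m) (hq : q.Prime) (hqm : q < m)
    (hqN : (q : ℝ) ≤ (N : ℝ) ^ (1 / (r : ℝ))) : ¬ QN N q m := by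
  rintro (h | h)
  · have h1 : q ∣ m := by exact_mod_cast h
    have := (Nat.prime_dvd_prime_iff_eq hq hm.1).1 h1
    omega
  · have h1 : (q : ℤ) ∣ ((N - m : ℕ) : ℤ) := by
      rw [Nat.cast_sub hm.2.1.le]
      exact h
    have h2 := hm.2.2.2 q hq (by exact_mod_cast h1)
    linarith

open Classical in
/-- **The sieve input**, uniform in the even number `N`. -/
theorem input (θ : ℝ) (hθ : 0 < θ) (hθ1 : θ ≤ 1) :
    ∃ (r : ℕ) (C1 C2 cS : ℝ), 2 ≤ r ∧ 0 < C1 ∧ 0 < C2 ∧ 0 < cS ∧ ∀ B0 : ℝ, 0 < B0 →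
      ∀ᶠ N : ℕ in atTop, 2 ∣ N → ∀ X : ℕ, (N : ℝ) ^ θ ≤ X → 4 * X ≤ N →
        2 ≤ Ls N ∧ B0 * Ls N ^ 2 ≤ X ∧
        (co (Gb r N) 0 (4 * X) : ℝ) ≤ C1 * X / Ls N ∧
        ∑ n ∈ Finset.Ico X (2 * X + 1), ((co (Gb r N) n (n + ⌊Ls N⌋₊) : ℝ)) ^ 2 ≤ C2 * X ∧
        cS * X / Ls N ≤ (co (Gb r N) X (2 * X) : ℝ) := by
  obtain ⟨v, w, hv, hw, hw1, hb⟩ := bounds
  obtain ⟨D', hD'⟩ : ∃ D' : ℕ, 32 / w ≤ D' := exists_nat_ge _
  obtain ⟨K1, hK1, hmain⟩ := Pool.Agent.W123.PP.sieve_inputE 2 4 4 D' 0 (by norm_num)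
  obtain ⟨K2, hK2, hlow⟩ := prime_lower 1 le_rfl
  obtain ⟨r0, hr0⟩ : ∃ r0 : ℕ, r0 = max K2 2 := ⟨_, rfl⟩
  have hr0K : K2 ≤ r0 := by rw [hr0]; exact le_max_left _ _
  have hr02 : 2 ≤ r0 := by rw [hr0]; exact le_max_right _ _
  have hr0r : (2 : ℝ) ≤ r0 := by exact_mod_cast hr02
  have hr0pos : (0 : ℝ) < r0 := by linarith
  obtain ⟨R0, hR0⟩ : ∃ R0 : ℕ, (r0 : ℝ) / θ ≤ R0 := exists_nat_ge _
  obtain ⟨r, hr⟩ : ∃ r : ℕ, r = max K1 (max R0 2) := ⟨_, rfl⟩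
  have hrK : K1 ≤ r := by rw [hr]; exact le_max_left _ _
  have hrR : R0 ≤ r := by rw [hr]; exact (le_max_left _ _).trans (le_max_right _ _)
  have hr2 : 2 ≤ r := by rw [hr]; exact (le_max_right _ _).trans (le_max_right _ _)
  have hrr : (2 : ℝ) ≤ r := by exact_mod_cast hr2
  have hrpos : (0 : ℝ) < r := by linarith
  have hrθ : (r0 : ℝ) ≤ θ * r := by
    have h1 : (r0 : ℝ) / θ ≤ r := hR0.trans (by exact_mod_cast hrR)
    rw [div_le_iff₀ hθ] at h1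
    linarith
  have hr0r' : (r0 : ℝ) ≤ r := by nlinarith
  set C3 : ℝ := v * (2 * r / θ) ^ 2 with hC3
  have hC30 : 0 < C3 := by positivity
  obtain ⟨C1, C2, hC1, hC2, hin⟩ := hmain r hrK C3 hC30
  refine ⟨r, C1, C2, w / 16, hr2, hC1, hC2, by positivity, ?_⟩
  intro B0 hB0
  obtain ⟨L0, hL0⟩ := hin B0 hB0
  obtain ⟨Y1, hY1⟩ := eventually_atTop.1 hL0
  obtain ⟨Y2, hY2⟩ := eventually_atTop.1 (hlow r0 hr0K 2)
  have hXr : Tendsto (fun X : ℕ => (X : ℝ)) atTop atTop := tendsto_natCast_atTop_atTop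
  have hpow : Tendsto (fun X : ℕ => (X : ℝ) ^ θ) atTop atTop := (tendsto_rpow_atTop hθ).comp hXr
  have hpow2 : Tendsto (fun X : ℕ => (X : ℝ) ^ (θ / (2 * r))) atTop atTop :=
    (tendsto_rpow_atTop (by positivity)).comp hXr
  have hlogX : Tendsto (fun X : ℕ => Real.log (X : ℝ)) atTop atTop :=
    Real.tendsto_log_atTop.comp hXr
  filter_upwards [hpow.eventually_ge_atTop ((Y1 : ℝ) + Y2 + 16), hpow2.eventually_ge_atTop 3,
    hlogX.eventually_ge_atTop ((2 * (|L0| + 2) / w + 1 / w + 1) / θ), logpow_rpow 16 1 θ one_pos hθ,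
    logpow_rpow 1 12 (θ / (2 * r)) (by norm_num) (by positivity),
    eventually_ge_atTop 16] with N hN1 hN2 hN3 hN4 hN5 hN16
  intro hNe X hNX hXN
  have hN16r : (16 : ℝ) ≤ N := by exact_mod_cast hN16
  have hNpos : (0 : ℝ) < N := by linarith
  have hNone : (1 : ℝ) ≤ N := by linarith
  have hXNn : X ≤ N := by omega
  have hXNr : (X : ℝ) ≤ N := by exact_mod_cast hXNn
  have hY1r : (0 : ℝ) ≤ Y1 := Nat.cast_nonneg _
  have hY2r : (0 : ℝ) ≤ Y2 := Nat.cast_nonneg _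
  have hX16 : (16 : ℝ) ≤ X := by linarith
  have hXpos : (0 : ℝ) < X := by linarith
  have hXone : (1 : ℝ) ≤ X := by linarith
  have hXn : 16 ≤ X := by exact_mod_cast hX16
  have hXY1 : Y1 ≤ X := by
    have : (Y1 : ℝ) ≤ X := by linarith
    exact_mod_cast this
  have hXY2 : Y2 ≤ X := by
    have : (Y2 : ℝ) ≤ X := by linarith
    exact_mod_cast this
  have hlogXN : θ * Real.log N ≤ Real.log X := by
    rw [← Real.log_rpow hNpos]
    exact Real.log_le_log (by positivity) hNX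
  have hlogXN' : Real.log X ≤ Real.log N := Real.log_le_log hXpos hXNr
  have hL0a : 0 ≤ |L0| := abs_nonneg _
  have hw' : 0 < 1 / w := by positivity
  have hw'' : 0 < 2 * (|L0| + 2) / w := by positivity
  have hθlog : 2 * (|L0| + 2) / w + 1 / w + 1 ≤ θ * Real.log N := by
    rw [div_le_iff₀ hθ] at hN3
    linarith
  have hlX : 2 * (|L0| + 2) / w + 1 / w + 1 ≤ Real.log X := by linarith
  have hlN : 2 * (|L0| + 2) / w + 1 / w + 1 ≤ Real.log N := by linarith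
  have hlN0 : 0 < Real.log N := by linarith
  have hlX0 : 0 < Real.log X := by linarith
  -- levels
  have hYr : (3 : ℝ) ≤ (X : ℝ) ^ (1 / (2 * r : ℝ)) ∧
      12 * Real.log N ≤ (X : ℝ) ^ (1 / (2 * r : ℝ)) := by
    have h1 : (N : ℝ) ^ (θ / (2 * r)) ≤ (X : ℝ) ^ (1 / (2 * r : ℝ)) := by
      calc (N : ℝ) ^ (θ / (2 * r)) = ((N : ℝ) ^ θ) ^ (1 / (2 * r : ℝ)) := by
            rw [← Real.rpow_mul hNpos.le]
            congr 1
            ring
        _ ≤ _ := Real.rpow_le_rpow (by positivity) hNX (by positivity)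
    rw [pow_one] at hN5
    exact ⟨hN2.trans h1, hN5.trans h1⟩
  have hYr0 : (X : ℝ) ^ (1 / (2 * r : ℝ)) ≤ (X : ℝ) ^ (1 / (2 * r0 : ℝ)) := by
    apply Real.rpow_le_rpow_of_exponent_le hXone
    apply one_div_le_one_div_of_le (by positivity)
    linarith
  obtain ⟨hy1, hy2, hy3, hy4⟩ := level_low r hr2 X (by omega) (by linarith [hYr.1])
  obtain ⟨hz1, hz2, hz3, hz4⟩ := level_low r0 hr02 X (by omega) (by linarith [hYr.1])
  have hylog : 0 < Real.log ⌊(X : ℝ) ^ (1 / (r : ℝ))⌋₊ := lt_of_lt_of_le (by positivity) hy2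
  have hzlog : 0 < Real.log ⌊(X : ℝ) ^ (1 / (r0 : ℝ))⌋₊ := lt_of_lt_of_le (by positivity) hz2
  -- singular series
  have hs1 := sing_ge N
  have hspos : 0 < sing N := by linarith
  have hlN1 : 1 ≤ Real.log N := by linarith
  have hsy : sing N ≤ 2 * sy N ⌊(X : ℝ) ^ (1 / (r : ℝ))⌋₊ := by
    apply sing_le N _ (by omega)
    have := hYr.2.trans hy1
    linarith
  have hsz : sing N ≤ 2 * sy N ⌊(X : ℝ) ^ (1 / (r0 : ℝ))⌋₊ := by
    apply sing_le N _ (by omega)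
    have := (hYr.2.trans hYr0).trans hz1
    linarith
  obtain ⟨by1, -, by3⟩ := hb N ⌊(X : ℝ) ^ (1 / (r : ℝ))⌋₊ hNe hy4
  obtain ⟨-, bz2, -⟩ := hb N ⌊(X : ℝ) ^ (1 / (r0 : ℝ))⌋₊ hNe hz4
  have hsle : sing N ≤ 2 * Real.log N / w := by
    calc sing N ≤ 2 * sy N ⌊(X : ℝ) ^ (1 / (r : ℝ))⌋₊ := hsy
      _ ≤ 2 * (Real.log ⌊(X : ℝ) ^ (1 / (r : ℝ))⌋₊ / w) := by linarith
      _ ≤ 2 * (Real.log N / w) := by
        have : Real.log ⌊(X : ℝ) ^ (1 / (r : ℝ))⌋₊ / w ≤ Real.log N / w :=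
          div_le_div_of_nonneg_right (hy3.trans hlogXN') hw.le
        linarith
      _ = _ := by ring
  obtain ⟨L, hL⟩ : ∃ L, L = Ls N := ⟨_, rfl⟩
  rw [← hL]
  have hLdef : L = Real.log N ^ 2 / sing N := hL
  have hLlow : w / 2 * Real.log N ≤ L := by
    rw [hLdef, le_div_iff₀ hspos]
    calc w / 2 * Real.log N * sing N ≤ w / 2 * Real.log N * (2 * Real.log N / w) := by gcongr
      _ = Real.log N ^ 2 := by field_simp
  have hLup : L ≤ Real.log N ^ 2 := by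
    rw [hLdef]
    exact div_le_self (by positivity) hs1
  have hLbig : |L0| + 2 ≤ L := by
    refine le_trans ?_ hLlow
    have h1 : 2 * (|L0| + 2) / w ≤ Real.log N := by linarith
    calc |L0| + 2 = w / 2 * (2 * (|L0| + 2) / w) := by field_simp
      _ ≤ _ := by gcongr
  have hLpos : 0 < L := by linarith
  have hL8 : L ^ 8 ≤ X := by
    calc L ^ 8 ≤ (Real.log N ^ 2) ^ 8 := pow_le_pow_left₀ hLpos.le hLup 8
      _ = 1 * Real.log N ^ 16 := by ring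
      _ ≤ (N : ℝ) ^ θ := hN4
      _ ≤ X := hNX
  have hVy : Vq (QN N) ⌊(X : ℝ) ^ (1 / (r : ℝ))⌋₊ ≤ C3 / L := by
    refine by1.trans ?_
    have h1 : (θ * Real.log N / (2 * r)) ^ 2 ≤ Real.log ⌊(X : ℝ) ^ (1 / (r : ℝ))⌋₊ ^ 2 := by
      apply pow_le_pow_left₀ (by positivity)
      refine le_trans ?_ hy2
      gcongr
    have h2 := sy_le_sing N ⌊(X : ℝ) ^ (1 / (r : ℝ))⌋₊ (by omega)
    calc v * sy N ⌊(X : ℝ) ^ (1 / (r : ℝ))⌋₊ / Real.log ⌊(X : ℝ) ^ (1 / (r : ℝ))⌋₊ ^ 2 ≤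
        v * sing N / (θ * Real.log N / (2 * r)) ^ 2 := by gcongr
      _ = C3 / L := by
        rw [hC3, hLdef]
        field_simp
  have hfloor : L / 2 ≤ (⌊L⌋₊ : ℝ) := by
    have := Nat.lt_floor_add_one L
    linarith
  have hLN : ⌊L⌋₊ < N := by
    have h1 : (⌊L⌋₊ : ℝ) ≤ L := Nat.floor_le hLpos.le
    have h2 : L ≤ L ^ 8 := le_self_pow₀ (by linarith) (by norm_num)
    have h3 : ⌊L⌋₊ ≤ X := by
      have : (⌊L⌋₊ : ℝ) ≤ X := by linarith
      exact_mod_cast this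
    omega
  obtain ⟨g1, g2, g3, g4⟩ := hY1 X hXY1 (QN N) (CoG (QN N)) L ∅ (sdata N hNe)
    (by
      have := le_abs_self L0
      linarith) hL8 hVy (by simp) (by
      intro h hh _
      rw [mem_Icc] at hh
      have h1 := large N ⌊L⌋₊ ⌊(X : ℝ) ^ (1 / (r : ℝ))⌋₊ h (by omega) hh.1 hh.2 hLN
      have h2 : 8 * Real.log N ≤ (D' * ⌊L⌋₊ : ℝ) := by
        calc 8 * Real.log N = 32 / w * (w / 2 * Real.log N / 2) := by field_simp; norm_num
          _ ≤ D' * ⌊L⌋₊ := by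
            apply mul_le_mul hD' _ (by positivity) (by positivity)
            linarith
      have h3 := h1.trans h2
      exact_mod_cast h3) (Gb r N) (by
      intro m hm _ hm2 p hp
      apply not_QN r N m p hm (mem_pz.1 hp).2 (lt_of_le_of_lt (mem_pz.1 hp).1 hm2)
      refine (mem_pz' (by positivity) hp).trans ?_
      exact Real.rpow_le_rpow hXpos.le hXNr (by positivity))
  refine ⟨g1, g2, g3, g4, ?_⟩
  -- lower bound
  have hWz : w * sy N ⌊(X : ℝ) ^ (1 / (r0 : ℝ))⌋₊ / Real.log ⌊(X : ℝ) ^ (1 / (r0 : ℝ))⌋₊ ≤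
      ∏ p ∈ pz ⌊(X : ℝ) ^ (1 / (r0 : ℝ))⌋₊, (1 - (rhoA (QA N) p : ℝ) / (p - 1 : ℝ)) := bz2
  have hsz1 := sy_ge N ⌊(X : ℝ) ^ (1 / (r0 : ℝ))⌋₊
  have hlw := hY2 X hXY2 (QA N) (perA N) (by
    refine le_trans ?_ hWz
    rw [div_le_div_iff₀ (by positivity) (by positivity), one_mul]
    have h2 : 1 ≤ w * Real.log X := by
      have : 1 / w ≤ Real.log X := by linarith
      rw [div_le_iff₀ hw] at this
      linarith
    calc Real.log ⌊(X : ℝ) ^ (1 / (r0 : ℝ))⌋₊ ≤ Real.log X * 1 := by linarith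
      _ ≤ Real.log X * (w * Real.log X) := by gcongr
      _ = w * 1 * Real.log X ^ 2 := by ring
      _ ≤ w * sy N ⌊(X : ℝ) ^ (1 / (r0 : ℝ))⌋₊ * Real.log X ^ 2 := by gcongr)
  have hl1 : w / 16 * X / L ≤ (∏ p ∈ pz ⌊(X : ℝ) ^ (1 / (r0 : ℝ))⌋₊,
      (1 - (rhoA (QA N) p : ℝ) / (p - 1 : ℝ))) * X / (8 * Real.log X) := by
    have e : w / 16 * X / L = w * (sing N / 2) / Real.log N * X / (8 * Real.log N) := by
      rw [hLdef]
      field_simp
      norm_num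
    rw [e]
    have h4 : w * (sing N / 2) / Real.log N ≤ ∏ p ∈ pz ⌊(X : ℝ) ^ (1 / (r0 : ℝ))⌋₊,
      (1 - (rhoA (QA N) p : ℝ) / (p - 1 : ℝ)) := by
      refine le_trans ?_ hWz
      have h5 : sing N / 2 ≤ sy N ⌊(X : ℝ) ^ (1 / (r0 : ℝ))⌋₊ := by linarith
      have h6 := hz3.trans hlogXN'
      have h8 : 0 ≤ w * sy N ⌊(X : ℝ) ^ (1 / (r0 : ℝ))⌋₊ := mul_nonneg hw.le (by linarith)
      calc w * (sing N / 2) / Real.log N ≤
          w * sy N ⌊(X : ℝ) ^ (1 / (r0 : ℝ))⌋₊ / Real.log N :=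
            div_le_div_of_nonneg_right (mul_le_mul_of_nonneg_left h5 hw.le) hlN0.le
        _ ≤ _ := div_le_div_of_nonneg_left h8 hzlog h6
    have h7 : 0 ≤ w * (sing N / 2) / Real.log N := by positivity
    exact div_le_div₀ (mul_nonneg (h7.trans h4) hXpos.le) (mul_le_mul_of_nonneg_right h4 hXpos.le)
      (by positivity) (by linarith)
  refine hl1.trans (hlw.trans ?_)
  unfold co
  have hz0 : (2 : ℝ) ≤ (X : ℝ) ^ (1 / (r0 : ℝ)) := by
    have h6 : ((⌊(X : ℝ) ^ (1 / (r0 : ℝ))⌋₊ : ℕ) : ℝ) ≤ (X : ℝ) ^ (1 / (r0 : ℝ)) :=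
      Nat.floor_le (by positivity)
    have h7 : (2 : ℝ) ≤ ((⌊(X : ℝ) ^ (1 / (r0 : ℝ))⌋₊ : ℕ) : ℝ) := by exact_mod_cast hz4
    linarith
  have hXz2 : (N : ℝ) ^ (1 / (r : ℝ)) ≤ (X : ℝ) ^ (1 / (r0 : ℝ)) := by
    calc (N : ℝ) ^ (1 / (r : ℝ)) ≤ (N : ℝ) ^ (θ / r0) := by
          apply Real.rpow_le_rpow_of_exponent_le hNone
          rw [div_le_div_iff₀ hrpos hr0pos]
          linarith
      _ = ((N : ℝ) ^ θ) ^ (1 / (r0 : ℝ)) := by
          rw [← Real.rpow_mul hNpos.le]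
          congr 1
          ring
      _ ≤ _ := Real.rpow_le_rpow (by positivity) hNX (by positivity)
  have hNz : (N : ℝ) ≤ ((X : ℝ) ^ (1 / (r0 : ℝ))) ^ (r + 1) := by
    calc (N : ℝ) = ((N : ℝ) ^ (1 / (r : ℝ))) ^ r := by
          rw [← Real.rpow_natCast, ← Real.rpow_mul hNpos.le, one_div, inv_mul_cancel₀ hrpos.ne',
            Real.rpow_one]
      _ ≤ ((X : ℝ) ^ (1 / (r0 : ℝ))) ^ r := pow_le_pow_left₀ (by positivity) hXz2 r
      _ ≤ _ := pow_le_pow_right₀ (by linarith) (by omega)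
  have hsub : (Finset.Ioc X (2 * X)).filter (fun n => n.Prime ∧
        ∀ p ∈ pz ⌊(X : ℝ) ^ (1 / (r0 : ℝ))⌋₊, ¬ QA N p n) ⊆
      (Finset.Ioc X (2 * X)).filter (fun n => Gb r N n) := by
    intro n hn
    rw [mem_filter, mem_Ioc] at hn ⊢
    obtain ⟨⟨hn1, hn2⟩, hn3, hn4⟩ := hn
    refine ⟨⟨hn1, hn2⟩, hn3, by omega, ?_⟩
    have hrough : ∀ q : ℕ, q.Prime → q ∣ N - n → (X : ℝ) ^ (1 / (r0 : ℝ)) < q := by
      intro q hq hdv
      refine not_mem_pz hq (fun h => hn4 q h ?_)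
      unfold QA
      have h1 : (q : ℤ) ∣ ((N - n : ℕ) : ℤ) := by exact_mod_cast hdv
      rwa [Nat.cast_sub (by omega)] at h1
    refine ⟨?_, fun q hq hdv => lt_of_le_of_lt hXz2 (hrough q hq hdv)⟩
    apply length_le (N - n) r (by omega) ((X : ℝ) ^ (1 / (r0 : ℝ))) hrough
    · refine le_trans ?_ hNz
      have : N - n ≤ N := Nat.sub_le _ _
      exact_mod_cast this
    · linarith
  exact_mod_cast card_le_card hsub

end Pool.Agent.TH464.GB
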