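import Pool.Agent.TH464.GB.Input
import Pool.Agent.W123.GS.Loc
import Pool.Agent.W123.PP.Local

set_option autoImplicit false

/-!
# Primes `p` with `N - p` almost prime: windows, uniformly in `N`
-/

namespace Pool.Agent.TH464.GB

open Finset Filter
open Pool.Agent.W123.RP Pool.Agent.W123.GS Pool.Agent.W123.PP

open Classical in
/-- the number of the `p` in `(a, b]` -/
noncomputable def Cn (r N a b : ℕ) : ℕ := ((Finset.Ioc a b).filter (fun p => Gb r N p)).card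

/-- all windows around `n` have the right order -/
def Reg (r : ℕ) (c₁ c₂ K : ℝ) (N X n : ℕ) : Prop :=
  ∀ a b : ℕ, a ≤ n → n ≤ b → K * Ls N ≤ (b : ℝ) - a → (b : ℝ) - a ≤ X →
    c₁ * ((b : ℝ) - a) / Ls N ≤ Cn r N a b ∧ (Cn r N a b : ℝ) ≤ c₂ * ((b : ℝ) - a) / Ls N

/-- constant density on `[n - D, n + D]` -/
def ConstD (r : ℕ) (c₁ c₂ δ : ℝ) (N n D : ℕ) : Prop :=
  ∃ lam : ℝ, c₁ ≤ lam ∧ lam ≤ c₂ ∧ ∀ u v : ℕ, n ≤ u + D → u ≤ v → v ≤ n + D →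
    |(Cn r N u v : ℝ) - lam * ((v : ℝ) - u) / Ls N| ≤ δ * D / Ls N

open Classical in
/-- the number of bad scales -/
noncomputable def bad (r : ℕ) (c₁ c₂ δ : ℝ) (N X n : ℕ) : ℕ :=
  ((range (Nat.log 2 X + 1)).filter (fun j => Ls N ≤ (2 : ℝ) ^ j ∧
    ¬ ConstD r c₁ c₂ δ N n (2 ^ j))).card

open Classical in
theorem main_pos (θ : ℝ) (hθ : 0 < θ) (hθ1 : θ ≤ 1) :
    ∃ (r : ℕ) (c₁ c₂ K κ : ℝ), 0 < c₁ ∧ 0 < c₂ ∧ 0 < K ∧ 0 < κ ∧ ∀ δ : ℝ, 0 < δ → ∃ B : ℕ,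
      ∀ᶠ N : ℕ in atTop, 2 ∣ N → ∀ X : ℕ, (N : ℝ) ^ θ ≤ X → 4 * X ≤ N →
        κ * X ≤ (((Finset.Ioc X (2 * X)).filter (fun n =>
          Reg r c₁ c₂ K N X n ∧ bad r c₁ c₂ δ N X n ≤ B)).card : ℝ) := by
  obtain ⟨r, C1, C2, cS, hr, hC1, hC2, hcS, hin⟩ := input θ hθ hθ1
  obtain ⟨c₁, c₂, K, κ, hc₁, hc₂, hK, hκ, hreg⟩ := regular_abs cS C1 C2 hcS hC1 hC2
  refine ⟨r, c₁, c₂, K, κ / 2, hc₁, hc₂, by linarith, by positivity, ?_⟩
  intro δ hδ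
  obtain ⟨B, Bs, hBs, hcore⟩ := scales_core c₁ c₂ K C2 (min (κ / 2) 1) δ hc₂ hK hC2
    (by positivity) (min_le_right _ _) hδ
  refine ⟨B, ?_⟩
  filter_upwards [hin (K / cS + Bs + 1) (by positivity)] with N hN hNe X hNX hXN
  obtain ⟨h1, h2, h3, h4, h5⟩ := hN hNe X hNX hXN
  obtain ⟨L, hL⟩ : ∃ L, L = Ls N := ⟨_, rfl⟩
  rw [← hL] at h1 h2 h3 h4 h5
  have hL0 : 0 < L := by linarith
  have hLL : 0 < L ^ 2 := by positivity
  have hKc : 0 ≤ K / cS := by positivity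
  have e1 : K / cS * L ^ 2 + Bs * L ^ 2 + L ^ 2 ≤ X := by linarith
  have e2 : 0 ≤ K / cS * L ^ 2 := by positivity
  have e3 : 0 ≤ Bs * L ^ 2 := by positivity
  have hR := hreg (Gb r N) (Gb r N) X L h1 (by
    have : K / cS * L ^ 2 ≤ X := by linarith
    rw [div_mul_eq_mul_div, div_le_iff₀ hcS] at this
    linarith) (fun _ h => h) h3 h5 h4
  have hB := hcore (Gb r N) (Gb r N) X L h1 (by linarith) (fun _ h => h) h4
  obtain ⟨RR, hRR⟩ : ∃ RR, RR = (Finset.Ioc X (2 * X)).filter (fun n => ∀ a b : ℕ, a ≤ n → n ≤ b →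
        K * L ≤ (b : ℝ) - a → (b : ℝ) - a ≤ n →
          c₁ * ((b : ℝ) - a) / L ≤ co (Gb r N) a b ∧
            (co (Gb r N) a b : ℝ) ≤ c₂ * ((b : ℝ) - a) / L) := ⟨_, rfl⟩
  rw [← hRR] at hR
  obtain ⟨BB, hBB⟩ : ∃ BB, BB = (Finset.Ioc X (2 * X)).filter (fun n => (∀ a b : ℕ, a ≤ n → n ≤ b →
        K * L ≤ (b : ℝ) - a → (b : ℝ) - a ≤ n →
          c₁ * ((b : ℝ) - a) / L ≤ co (Gb r N) a b ∧
            (co (Gb r N) a b : ℝ) ≤ c₂ * ((b : ℝ) - a) / L) ∧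
        B < ((range (Nat.log 2 X + 1)).filter (fun j => L ≤ (2 : ℝ) ^ j ∧
          ¬ Good (Gb r N) c₁ c₂ δ L n j)).card) := ⟨_, rfl⟩
  rw [← hBB] at hB
  have hsd : ((RR.card : ℝ)) - BB.card ≤ ((RR \ BB).card : ℝ) := by
    have h := Finset.card_le_card_sdiff_add_card (s := RR) (t := BB)
    have h' : (RR.card : ℝ) ≤ ((RR \ BB).card : ℝ) + BB.card := by exact_mod_cast h
    linarith
  have hXpos : (0 : ℝ) ≤ X := Nat.cast_nonneg X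
  have hmin : min (κ / 2) 1 * (X : ℝ) ≤ κ / 2 * X :=
    mul_le_mul_of_nonneg_right (min_le_left _ _) hXpos
  have hfin : κ / 2 * X ≤ ((RR \ BB).card : ℝ) := by linarith
  refine hfin.trans ?_
  have hle : (RR \ BB).card ≤ ((Finset.Ioc X (2 * X)).filter (fun n =>
          Reg r c₁ c₂ K N X n ∧ bad r c₁ c₂ δ N X n ≤ B)).card := by
    apply card_le_card
    intro n hn
    rw [Finset.mem_sdiff, hRR, hBB, mem_filter, mem_filter, mem_Ioc] at hn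
    obtain ⟨⟨hn1, hn2⟩, hn3⟩ := hn
    rw [mem_filter, mem_Ioc]
    have hfew : ((range (Nat.log 2 X + 1)).filter (fun j => L ≤ (2 : ℝ) ^ j ∧
        ¬ Good (Gb r N) c₁ c₂ δ L n j)).card ≤ B := by
      by_contra hcon
      rw [not_le] at hcon
      exact hn3 ⟨hn1, hn2, hcon⟩
    refine ⟨hn1, ?_, ?_⟩
    · intro a b ha hb hab1 hab2
      rw [← hL] at hab1 ⊢
      have hXn : (X : ℝ) ≤ n := by exact_mod_cast hn1.1.le
      exact hn2 a b ha hb hab1 (by linarith)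
    · refine le_trans ?_ hfew
      unfold bad
      apply card_le_card
      intro j hj
      rw [mem_filter] at hj ⊢
      obtain ⟨hj1, hj2, hj3⟩ := hj
      rw [← hL] at hj2
      refine ⟨hj1, hj2, ?_⟩
      intro hG
      apply hj3
      obtain ⟨lam, g1, g2, g3⟩ := hG
      refine ⟨lam, g1, g2, ?_⟩
      intro u v hu huv hv
      have g4 := g3 u v hu huv hv
      rw [← hL]
      push_cast
      exact g4
  exact_mod_cast hle

/-- all windows around `p` of length at least `Ls N / c` have the right order -/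
def RightO (r : ℕ) (c : ℝ) (N X p : ℕ) : Prop :=
  ∀ s t : ℕ, s ≤ X → t ≤ X → Ls N ≤ c * (s + t) →
    c * (s + t) / Ls N ≤ Cn r N (p - s) (p + t) ∧
      (Cn r N (p - s) (p + t) : ℝ) ≤ (s + t) / (c * Ls N)

/-- constant density on both sides of `p` up to the distance `2 ^ j` -/
def ConstS (r : ℕ) (c δ : ℝ) (N p j : ℕ) : Prop :=
  ∃ lam : ℝ, c ≤ lam ∧ lam ≤ 1 / c ∧ ∀ s t : ℕ, s ≤ 2 ^ j → t ≤ 2 ^ j →
    |(Cn r N (p - s) (p + t) : ℝ) - lam * (s + t) / Ls N| ≤ δ * 2 ^ j / Ls N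

open Classical in
/-- the number of bad scales -/
noncomputable def badS (r : ℕ) (c δ : ℝ) (N X p : ℕ) : ℕ :=
  ((Finset.range (Nat.log 2 X + 1)).filter (fun j => Ls N ≤ (2 : ℝ) ^ j ∧
    ¬ ConstS r c δ N p j)).card

open Classical in
theorem main_points (θ : ℝ) (hθ : 0 < θ) (hθ1 : θ ≤ 1) :
    ∃ r : ℕ, (∃ κ : ℝ, 0 < κ ∧ ∀ᶠ N : ℕ in atTop, 2 ∣ N → ∀ X : ℕ, (N : ℝ) ^ θ ≤ X → 4 * X ≤ N →
      κ * X / Ls N ≤ Cn r N X (2 * X)) ∧
    ∀ ε : ℝ, 0 < ε → ∃ c : ℝ, 0 < c ∧ ∀ δ : ℝ, 0 < δ → ∃ B : ℕ,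
      ∀ᶠ N : ℕ in atTop, 2 ∣ N → ∀ X : ℕ, (N : ℝ) ^ θ ≤ X → 4 * X ≤ N →
        (((Finset.Ioc X (2 * X)).filter (fun p => Gb r N p ∧
          ¬ (RightO r c N X p ∧ badS r c δ N X p ≤ B))).card : ℝ) ≤ ε * X / Ls N := by
  obtain ⟨r, C1, C2, cS, hr, hC1, hC2, hcS, hin⟩ := input θ hθ hθ1
  refine ⟨r, ⟨cS, hcS, ?_⟩, ?_⟩
  · filter_upwards [hin 1 one_pos] with N hN hNe X hNX hXN
    exact (hN hNe X hNX hXN).2.2.2.2
  intro ε hε
  obtain ⟨c1, Lam, hc1, hLam, hpts⟩ := points C1 C2 hC1 hC2 ε hε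
  obtain ⟨c0, hc0def⟩ : ∃ c0 : ℝ, c0 = min c1 1 := ⟨_, rfl⟩
  have hc0 : 0 < c0 := by rw [hc0def]; exact lt_min hc1 one_pos
  have hc0c1 : c0 ≤ c1 := by rw [hc0def]; exact min_le_left _ _
  have hc01 : c0 ≤ 1 := by rw [hc0def]; exact min_le_right _ _
  obtain ⟨c, hcdef⟩ : ∃ c : ℝ, c = min (1 / (3 * Lam)) (c0 / 4) := ⟨_, rfl⟩
  have hc : 0 < c := by rw [hcdef]; positivity
  have hc4 : c ≤ c0 / 4 := by rw [hcdef]; exact min_le_right _ _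
  have hcL : c ≤ 1 / (3 * Lam) := by rw [hcdef]; exact min_le_left _ _
  refine ⟨c, hc, ?_⟩
  intro δ hδ
  obtain ⟨K, B0, hB0, hpts⟩ := hpts (min δ (c0 / 4)) (by positivity)
  obtain ⟨s0, hs0⟩ : ∃ s0 : ℕ, 2 / c0 ≤ (2 : ℝ) ^ s0 := by
    obtain ⟨j, hj⟩ := pow_unbounded_of_one_lt (2 / c0) (one_lt_two : (1 : ℝ) < 2)
    exact ⟨j, hj.le⟩
  refine ⟨K + s0, ?_⟩
  filter_upwards [hin (B0 + 1) (by positivity)] with N hN hNe X hNX hXN
  obtain ⟨h1, h2, h3, h4, -⟩ := hN hNe X hNX hXN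
  obtain ⟨L, hL⟩ : ∃ L, L = Ls N := ⟨_, rfl⟩
  rw [← hL] at h1 h2 h3 h4
  have hL0 : 0 < L := by linarith
  have hLL : 0 < L ^ 2 := by positivity
  have hB0L : 0 ≤ B0 * L ^ 2 := by positivity
  have hLX : L ≤ X := by nlinarith
  have hBX' : B0 * L ^ 2 ≤ X := by nlinarith
  have hbad := hpts (Gb r N) (Gb r N) X L h1 hBX' (fun _ h => h) h3 h4
  rw [← hL]
  refine le_trans ?_ hbad
  have hle : ((Finset.Ioc X (2 * X)).filter (fun p => Gb r N p ∧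
          ¬ (RightO r c N X p ∧ badS r c δ N X p ≤ K + s0))).card ≤
      ((Finset.Ioc X (2 * X)).filter (fun p => Gb r N p ∧ ¬ (
        (∀ H : ℕ, 1 ≤ H → H ≤ X →
          c1 / L * H ≤ cl (Gb r N) p (p + H) ∧ c1 / L * H ≤ cl (Gb r N) (p + 1 - H) (p + 1)) ∧
        (∀ H : ℕ, ⌊L⌋₊ ≤ H → H ≤ X →
          (co (Gb r N) p (p + H) : ℝ) ≤ Lam / L * H ∧
            (co (Gb r N) (p - H) p : ℝ) ≤ Lam / L * H) ∧
        ((range (Nat.log 2 X + 1)).filter (fun j => L ≤ (2 : ℝ) ^ j ∧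
          ¬ Good (Gb r N) 0 Lam (min δ (c0 / 4)) L p j)).card ≤ K))).card := by
    apply card_le_card
    intro n hm
    rw [mem_filter, mem_Ioc] at hm
    obtain ⟨hm1, hm3, hm4⟩ := hm
    rw [mem_filter, mem_Ioc]
    refine ⟨hm1, hm3, ?_⟩
    rintro ⟨W1, W2, W3⟩
    apply hm4
    have hgood := local_good (Gb r N) n X L c0 Lam c δ K s0 h1 hLX hm1.1.le hc0 hc01 hLam hc
      hc4 hcL hδ hs0 (by
        intro H hH1 hH2
        have h3 : c0 / L * H ≤ c1 / L * H := by gcongr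
        exact ⟨h3.trans (W1 H hH1 hH2).1, h3.trans (W1 H hH1 hH2).2⟩) W2 W3
    obtain ⟨G1, G2⟩ := hgood
    constructor
    · intro s t hs ht hst
      rw [← hL] at hst ⊢
      exact G1 s t hs ht hst
    · refine le_trans ?_ G2
      unfold badS
      apply card_le_card
      intro j hj
      rw [mem_filter] at hj ⊢
      obtain ⟨hj1, hj2, hj3⟩ := hj
      rw [← hL] at hj2
      refine ⟨hj1, hj2, ?_⟩
      rintro ⟨lam, g1, g2, g3⟩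
      apply hj3
      refine ⟨lam, g1, g2, ?_⟩
      intro s t hs ht
      rw [← hL]
      exact g3 s t hs ht
  exact_mod_cast hle

end Pool.Agent.TH464.GB
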